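import Pool.Agent.W646.PN.One

/-!
# Assembly
-/

set_option autoImplicit false

namespace Pool.Agent.W646.PN

open Pool.Agent.Helper184.Gur

theorem range_subset (k : ℕ) : realRange k ⊆ Set.Icc 0 1 := by
  rintro _ ⟨X, _, _, _, _, rfl⟩
  exact ⟨index_nonneg, index_le_one k⟩

lemma nontrivial_of_isG {X : Type} [NormedAddCommGroup X] [NormedSpace ℝ X]
    {co : ℕ → X →L[ℝ] ℝ} {z : ℕ → X} (G : IsG co z) : Nontrivial X :=
  ⟨z 1, 0, fun h => by
    have := congrArg (co 1) h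
    rw [G.z_self, map_zero] at this
    exact one_ne_zero this⟩

theorem icc_subset (hDEN : S_DEN) (hDEG : S_DEG) (hZERO : S_ZERO) (hPATH : S_PATH) (k : ℕ)
    (hk : 2 ≤ k) (X : Type) [NormedAddCommGroup X] [NormedSpace ℝ X] [CompleteSpace X]
    {co : ℕ → X →L[ℝ] ℝ} {z : ℕ → X} (G : IsG co z) : Set.Icc 0 1 ⊆ realRange k := by
  have := nontrivial_of_isG G
  rintro r ⟨h0, h1⟩
  have hb12 : co 1 (z 2) = 0 := G.z_lt 2 1 (by norm_num)
  obtain ⟨Y, i1, i2, hc, hn, ⟨L⟩, hY⟩ := hZERO X (co 1) (co 2 - co 2 (z 1) • co 1)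
    (z 1) (z 2) (G.z_self 1) hb12 (by simp [G.z_self]) (by simp [hb12, G.z_self]) k hk
  exact hPATH k (by omega) X Y L r (by rw [hY]; exact h0) (by rw [one hDEN hDEG G k]; exact h1)

theorem range_eq (hDEN : S_DEN) (hDEG : S_DEG) (hZERO : S_ZERO) (hPATH : S_PATH) (k : ℕ)
    (hk : 2 ≤ k) : realRange k = Set.Icc 0 1 :=
  Set.Subset.antisymm (range_subset k) (icc_subset hDEN hDEG hZERO hPATH k hk GX isG)

end Pool.Agent.W646.PN
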