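import Pool.Agent.W646.PN.Stm

/-!
# Dyadic combinations of coordinates
-/

set_option autoImplicit false

namespace Pool.Agent.W646.PN

open Pool.Agent.Helper184.Gur

lemma comb_aux (X : Type) [NormedAddCommGroup X] [NormedSpace ℝ X] (co : ℕ → X →L[ℝ] ℝ)
    (p q : ℕ) (m : ℕ) : ∀ (s : ℕ) (j : ℕ), j ≤ 2 ^ s → ∃ k, m ≤ k ∧
    ∀ f : X, Rec co m f → co k f = ((j : ℝ) / 2 ^ s) * co p f + (1 - (j : ℝ) / 2 ^ s) * co q f := by
  intro s
  induction s with
  | zero =>
    intro j hj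
    have hj' : j = 0 ∨ j = 1 := by
      rw [pow_zero] at hj
      omega
    rcases hj' with rfl | rfl
    · obtain ⟨k, hk, ha, hb⟩ := exists_ab q q m
      refine ⟨k, hk, fun f hf => ?_⟩
      rw [hf k hk, ha, hb]
      simp
    · obtain ⟨k, hk, ha, hb⟩ := exists_ab p p m
      refine ⟨k, hk, fun f hf => ?_⟩
      rw [hf k hk, ha, hb]
      simp
  | succ s ih =>
    intro j hj
    have h2 : (2 : ℝ) ^ s ≠ 0 := by positivity
    rcases Nat.even_or_odd' j with ⟨c, rfl | rfl⟩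
    · have hc : c ≤ 2 ^ s := by
        rw [pow_succ] at hj
        omega
      obtain ⟨k, hk, h⟩ := ih c hc
      refine ⟨k, hk, fun f hf => ?_⟩
      rw [h f hf]
      have e : ((2 * c : ℕ) : ℝ) / 2 ^ (s + 1) = (c : ℝ) / 2 ^ s := by
        push_cast
        rw [pow_succ]
        field_simp
      rw [e]
    · have hc : c + 1 ≤ 2 ^ s := by
        rw [pow_succ] at hj
        omega
      obtain ⟨k₁, hk₁, h₁⟩ := ih c (by omega)
      obtain ⟨k₂, hk₂, h₂⟩ := ih (c + 1) hc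
      obtain ⟨k, hk, ha, hb⟩ := exists_ab k₁ k₂ m
      refine ⟨k, hk, fun f hf => ?_⟩
      rw [hf k hk, ha, hb, h₁ f hf, h₂ f hf]
      have e : ((2 * c + 1 : ℕ) : ℝ) / 2 ^ (s + 1) =
          ((c : ℝ) / 2 ^ s + ((c + 1 : ℕ) : ℝ) / 2 ^ s) / 2 := by
        push_cast
        rw [pow_succ]
        field_simp
        ring
      rw [e]
      ring

theorem comb : S_COMB := by
  intro X _ _ co p q w hw h0 h1 m
  obtain ⟨s, j, rfl⟩ := hw
  have h2 : (0 : ℝ) < 2 ^ s := by positivity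
  have hj0 : 0 ≤ j := by
    have : (0 : ℝ) ≤ j := by
      rw [le_div_iff₀ h2, zero_mul] at h0
      exact h0
    exact_mod_cast this
  obtain ⟨j', rfl⟩ := Int.eq_ofNat_of_zero_le hj0
  have hj1 : j' ≤ 2 ^ s := by
    rw [div_le_iff₀ h2, one_mul] at h1
    exact_mod_cast h1
  obtain ⟨k, hk, h⟩ := comb_aux X co p q m s j' hj1
  refine ⟨k, hk, fun f hf => ?_⟩
  rw [h f hf]
  simp

end Pool.Agent.W646.PN
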