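import Pool.Agent.W646.PN.Comb

/-!
# The construction
-/

set_option autoImplicit false

namespace Pool.Agent.W646.PN

open Pool.Agent.Helper184.Gur

section

variable {X : Type} [NormedAddCommGroup X] [NormedSpace ℝ X] {co : ℕ → X →L[ℝ] ℝ} {z : ℕ → X}

/-- simultaneous approximation of finitely many vectors by elements of a common level -/
lemma level (G : IsG co z) (δ : ℝ) (hδ : 0 < δ) (vs : ℕ → X) (n : ℕ) : ∀ N : ℕ, ∃ m, n ≤ m ∧
    ∀ l < N, ∃ y : X, Rec co m y ∧ ‖vs l - y‖ ≤ δ := by
  intro N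
  induction N with
  | zero => exact ⟨n, le_rfl, fun l hl => absurd hl (Nat.not_lt_zero l)⟩
  | succ N ih =>
    obtain ⟨m, hm, h⟩ := ih
    obtain ⟨w, n', hw, hd⟩ := G.dense (vs N) δ hδ
    refine ⟨max m n', hm.trans (le_max_left _ _), fun l hl => ?_⟩
    rcases Nat.lt_succ_iff_lt_or_eq.1 hl with hl' | rfl
    · obtain ⟨y, hy, hyd⟩ := h l hl'
      exact ⟨y, hy.mono (le_max_left _ _), hyd⟩
    · exact ⟨w, hw.mono (le_max_right _ _), hd⟩

lemma co_near (G : IsG co z) {δ : ℝ} {v y : X} (h : ‖v - y‖ ≤ δ) (i : ℕ) :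
    |co i v - co i y| ≤ δ := by
  rw [← map_sub]
  exact (G.le_norm _ i).trans h

/-- state of the induction -/
structure St (co : ℕ → X →L[ℝ] ℝ) {k : ℕ} (A : ContinuousMultilinearMap ℝ (fun _ : Fin k => X) X)
    (v : ℝ) (x : X) (i : ℕ) (ε : ℝ) (N p n : ℕ) (u : ℕ → X) : Prop where
  lt : p < n
  rx : Rec co n x
  ru : ∀ l < N, Rec co n (u l)
  px : co p x = co i x
  pu : ∀ l < N, co p (u l) = 0
  nm : ∀ S ⊆ Finset.range N, ‖x + ∑ l ∈ S, u l‖ ≤ 1
  ex : |co p (A (fun _ => x)) - co i (A (fun _ => x))| ≤ N * ε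
  eu : ∀ l < N, co p (A (fun _ => x + u l)) ≤ v + N * ε

lemma support_pair (G : IsG co z) {k : ℕ}
    {A : ContinuousMultilinearMap ℝ (fun _ : Fin k => X) X} {v : ℝ}
    (H : ∀ (y : X) (f : X →L[ℝ] ℝ), ‖y‖ = 1 → ‖f‖ = 1 → f y = 1 → |f (A (fun _ => y))| ≤ v)
    {y : X} (hy : ‖y‖ ≤ 1) {j : ℕ} {s : ℝ} (hs : s = 1 ∨ s = -1) (hj : co j y = s) :
    |co j (A (fun _ => y))| ≤ v := by
  have hss : s * s = 1 := by rcases hs with rfl | rfl <;> norm_num
  have habs : |s| = 1 := by rcases hs with rfl | rfl <;> norm_num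
  have hn2 : 1 ≤ ‖y‖ := by
    have := G.le_norm y j
    rwa [hj, habs] at this
  have hn : ‖y‖ = 1 := le_antisymm hy hn2
  have hf1 : ‖s • co j‖ ≤ 1 := by
    apply ContinuousLinearMap.opNorm_le_bound _ zero_le_one
    intro w
    rw [one_mul, _root_.smul_apply, norm_smul, Real.norm_eq_abs, Real.norm_eq_abs, habs, one_mul]
    exact G.le_norm w j
  have hfx : (s • co j) y = 1 := by
    rw [_root_.smul_apply, hj, smul_eq_mul, hss]
  have hf2 : 1 ≤ ‖s • co j‖ := by
    have := (s • co j).le_opNorm y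
    rw [hfx, hn, mul_one] at this
    simpa using this
  have hH := H y (s • co j) hn (le_antisymm hf1 hf2) hfx
  rwa [_root_.smul_apply, smul_eq_mul, abs_mul, habs, one_mul] at hH

lemma dy_half {t : ℝ} (ht : Dy t) : Dy ((1 + t) / 2) := by
  obtain ⟨s, j, rfl⟩ := ht
  refine ⟨s + 1, 2 ^ s + j, ?_⟩
  have h2 : (2 : ℝ) ^ s ≠ 0 := by positivity
  push_cast
  rw [pow_succ]
  field_simp

lemma step (G : IsG co z) {k : ℕ}
    {A : ContinuousMultilinearMap ℝ (fun _ : Fin k => X) X} {v : ℝ}
    (H : ∀ (y : X) (f : X →L[ℝ] ℝ), ‖y‖ = 1 → ‖f‖ = 1 → f y = 1 → |f (A (fun _ => y))| ≤ v)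
    {x : X} {i : ℕ} (hdy : Dy (co i x)) (hx1 : ‖x‖ ≤ 1) {ε : ℝ} (hε : 0 < ε)
    {N p n : ℕ} {u : ℕ → X} (T : St co A v x i ε N p n u) :
    ∃ (p' n' : ℕ) (u' : ℕ → X), St co A v x i ε (N + 1) p' n' u' := by
  set t := co i x with ht
  have ht1 : |t| ≤ 1 := (G.le_norm x i).trans hx1
  rw [abs_le] at ht1
  -- the level `m`
  set vs : ℕ → X := fun l => if l = 0 then A (fun _ => x) else A (fun _ => x + u (l - 1)) with hvs
  obtain ⟨m, hnm, hm⟩ := level G (ε / 2) (by positivity) vs n (N + 1)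
  obtain ⟨kp, hkp, hap, hbp⟩ := exists_ab p p m
  obtain ⟨kn, hkn, han, hbn⟩ := exists_ab p p (kp + 1)
  have hpk : p < kp := T.lt.trans_le (hnm.trans hkp)
  have hevp : ∀ f, Rec co m f → co kp f = co p f := by
    intro f hf
    rw [hf kp hkp, hap, hbp]; ring
  have hevn' : ∀ f, Rec co (kp + 1) f → co kn f = co p f := by
    intro f hf
    rw [hf kn hkn, han, hbn]; ring
  have hevn : ∀ f, Rec co m f → co kn f = co p f := fun f hf =>
    hevn' f (hf.mono (by omega))
  set cp : ℝ := 1 - t with hcp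
  set cn : ℝ := -1 - t with hcn
  set e : X := cp • z kp + cn • z kn with he
  have hpkn : p < kn := by omega
  have hkpn : kp < kn := by omega
  have hce : co p e = 0 := by
    rw [he, map_add, map_smul, map_smul, G.z_lt kp p hpk, G.z_lt kn p hpkn]
    simp
  have hzpn : co kn (z kp) = 0 := by
    rw [hevn' _ (G.z_rec kp), G.z_lt kp p hpk]
  have hcpe : co kp e = cp := by
    rw [he, map_add, map_smul, map_smul, G.z_self, G.z_lt kn kp hkpn]
    simp
  have hcne : co kn e = cn := by
    rw [he, map_add, map_smul, map_smul, hzpn, G.z_self]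
    simp
  have hre : Rec co (kn + 1) e :=
    (((G.z_rec kp).mono (by omega)).smul cp).add ((G.z_rec kn).smul cn)
  -- norm estimate
  have hnorm : ∀ y : X, Rec co n y → co p y = t → ‖y‖ ≤ 1 → ‖y + e‖ ≤ 1 := by
    intro y hy hyp hy1
    rw [he, ← add_assoc]
    have h1 : ‖y + cp • z kp‖ ≤ 1 := by
      apply G.norm_add_bump (hy.mono (hnm.trans hkp)) hy1
      rw [hevp y (hy.mono hnm), hyp, hcp]
      simp
    have h2 : Rec co (kp + 1) (y + cp • z kp) :=
      (hy.mono (by omega)).add ((G.z_rec kp).smul cp)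
    apply G.norm_add_bump (h2.mono (by omega)) h1
    rw [hevn' _ h2, map_add, map_smul, G.z_lt kp p hpk, hyp, hcn]
    simp
  have hsumrec : ∀ S ⊆ Finset.range N, Rec co n (∑ l ∈ S, u l) := by
    intro S hS j hj
    simp only [map_sum]
    rw [← Finset.sum_add_distrib, Finset.sum_div]
    apply Finset.sum_congr rfl
    intro l hl
    exact T.ru l (Finset.mem_range.1 (hS hl)) j hj
  have hsump : ∀ S ⊆ Finset.range N, co p (∑ l ∈ S, u l) = 0 := by
    intro S hS
    rw [map_sum]
    exact Finset.sum_eq_zero fun l hl => T.pu l (Finset.mem_range.1 (hS hl))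
  -- supporting pairs
  have hx'1 : ‖x + e‖ ≤ 1 := hnorm x T.rx T.px hx1
  have hxp : co kp (x + e) = 1 := by
    rw [map_add, hevp x (T.rx.mono hnm), T.px, hcpe, hcp]; ring
  have hxn : co kn (x + e) = -1 := by
    rw [map_add, hevn x (T.rx.mono hnm), T.px, hcne, hcn]; ring
  have hvp := support_pair G H hx'1 (Or.inl rfl) hxp
  have hvn := support_pair G H hx'1 (Or.inr rfl) hxn
  rw [abs_le] at hvp hvn
  -- the new level
  obtain ⟨w, m₁, hw, hwd⟩ := G.dense (A (fun _ => x + e)) (ε / 2) (by positivity)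
  obtain ⟨p', hp', hcomb⟩ := comb X co kp kn ((1 + t) / 2) (dy_half hdy) (by linarith)
    (by linarith) (max (kn + 1) m₁)
  have hlev : ∀ f, Rec co m f → co p' f = co p f := by
    intro f hf
    rw [hcomb f (hf.mono (le_trans (by omega) (le_max_left _ _))), hevp f hf, hevn f hf]
    ring
  have hle1 : kn + 1 ≤ p' := (le_max_left _ _).trans hp'
  have hmp' : m ≤ p' := by omega
  have happ : ∀ l < N + 1, |co p' (vs l) - co p (vs l)| ≤ ε := by
    intro l hl
    obtain ⟨y, hy, hyd⟩ := hm l hl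
    have h1 := co_near G hyd p'
    have h2 := co_near G hyd p
    rw [hlev y hy] at h1
    rw [abs_le] at h1 h2 ⊢
    constructor <;> linarith [h1.1, h1.2, h2.1, h2.2]
  refine ⟨p', p' + 1, fun l => if l < N then u l else e, ⟨Nat.lt_succ_self _, ?_, ?_, ?_, ?_, ?_, ?_, ?_⟩⟩
  · exact T.rx.mono (by omega)
  · intro l hl
    by_cases h : l < N
    · simp only [h, if_true]
      exact (T.ru l h).mono (by omega)
    · simp only [h, if_false]
      exact hre.mono (by omega)
  · rw [hlev x (T.rx.mono hnm), T.px]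
  · intro l hl
    by_cases h : l < N
    · simp only [h, if_true]
      rw [hlev _ ((T.ru l h).mono hnm), T.pu l h]
    · simp only [h, if_false]
      rw [hcomb e (hre.mono (le_max_left _ _)), hcpe, hcne, hcp, hcn]
      ring
  · intro S hS
    have hsplit : ∀ S' ⊆ Finset.range N, ∑ l ∈ S', (if l < N then u l else e) = ∑ l ∈ S', u l := by
      intro S' hS'
      apply Finset.sum_congr rfl
      intro l hl
      rw [if_pos (Finset.mem_range.1 (hS' hl))]
    by_cases hN : N ∈ S
    · have hS' : S.erase N ⊆ Finset.range N := by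
        intro l hl
        have h1 := Finset.mem_range.1 (hS (Finset.mem_of_mem_erase hl))
        have h2 := Finset.ne_of_mem_erase hl
        exact Finset.mem_range.2 (by omega)
      rw [← Finset.sum_erase_add S _ hN, hsplit _ hS', if_neg (lt_irrefl N), ← add_assoc]
      apply hnorm _ (T.rx.add (hsumrec _ hS')) _ (T.nm _ hS')
      rw [map_add, hsump _ hS', T.px, add_zero]
    · have hS' : S ⊆ Finset.range N := by
        intro l hl
        have h1 := Finset.mem_range.1 (hS hl)
        have h2 : l ≠ N := fun h => hN (h ▸ hl)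
        exact Finset.mem_range.2 (by omega)
      rw [hsplit _ hS']
      exact T.nm _ hS'
  · have h1 := happ 0 (Nat.succ_pos N)
    have h2 := T.ex
    simp only [hvs, if_true] at h1
    rw [abs_le] at h1 h2 ⊢
    push_cast
    constructor <;> linarith [h1.1, h1.2, h2.1, h2.2]
  · intro l hl
    by_cases h : l < N
    · simp only [h, if_true]
      have h1 := happ (l + 1) (by omega)
      have h2 := T.eu l h
      simp only [hvs, Nat.succ_ne_zero, if_false, Nat.add_sub_cancel] at h1
      rw [abs_le] at h1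
      push_cast
      linarith [h1.2]
    · simp only [h, if_false]
      have h1 := co_near G hwd p'
      have h2 := co_near G hwd kp
      have h3 := co_near G hwd kn
      rw [hcomb w (hw.mono (le_max_right _ _))] at h1
      rw [abs_le] at h1 h2 h3
      have h4 : 0 ≤ (N : ℝ) * ε := by positivity
      push_cast
      have h5 : (1 + t) / 2 * co kp w ≤ (1 + t) / 2 * (v + ε / 2) := by
        apply mul_le_mul_of_nonneg_left _ (by linarith)
        linarith [h2.1]
      have h6 : (1 - (1 + t) / 2) * co kn w ≤ (1 - (1 + t) / 2) * (v + ε / 2) := by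
        apply mul_le_mul_of_nonneg_left _ (by linarith)
        linarith [h3.1]
      linarith [h1.2]

end

theorem con : S_CON := by
  intro X _ _ co z G k A v H x n i hx hdy hx1 ε hε N
  have key : ∀ N : ℕ, ∃ (p n' : ℕ) (u : ℕ → X), St co A v x i ε N p n' u := by
    intro N
    induction N with
    | zero =>
      refine ⟨i, max n (i + 1), fun _ => 0, ⟨?_, ?_, ?_, rfl, ?_, ?_, ?_, ?_⟩⟩
      · exact lt_of_lt_of_le (Nat.lt_succ_self i) (le_max_right _ _)
      · exact hx.mono (le_max_left _ _)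
      · intro l hl; exact absurd hl (Nat.not_lt_zero l)
      · intro l hl; exact absurd hl (Nat.not_lt_zero l)
      · intro S hS; simpa using hx1
      · simp
      · intro l hl; exact absurd hl (Nat.not_lt_zero l)
    | succ N ih =>
      obtain ⟨p, n', u, T⟩ := ih
      exact step G H hdy hx1 hε T
  obtain ⟨p, n', u, T⟩ := key N
  exact ⟨p, u, T.nm, T.ex, T.eu⟩

end Pool.Agent.W646.PN
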