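import Pool.Agent.W646.PN.Asm
import Pool.Agent.W637.PN.DEN
import Pool.Agent.W303.PN.Deg
import Pool.Agent.W391.PN.Zero
import Pool.Agent.W15.PN.Path

/-!
# The range of the polynomial numerical indices of real Banach spaces
-/

set_option autoImplicit false

namespace Pool.Agent.W646.PN

open Pool.Agent.Helper184.Gur

/-- All polynomial numerical indices of the space `GX` are one. -/
theorem index_GX (k : ℕ) : polyIndex k GX = 1 :=
  haveI : Nontrivial GX := nontrivial_of_isG isG
  one Pool.Agent.W637.PN.den Pool.Agent.W303.PN.deg isG k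

theorem final (k : ℕ) (hk : 2 ≤ k) : realRange k = Set.Icc 0 1 :=
  range_eq Pool.Agent.W637.PN.den Pool.Agent.W303.PN.deg Pool.Agent.W391.PN.Zero.main
    Pool.Agent.W15.PN.main k hk

end Pool.Agent.W646.PN
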