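import Mathlib

set_option autoImplicit false

namespace Pool.Agent.W646.PN

/-- The norm of the `k`-homogeneous polynomial `x ↦ A (x, …, x)`: supremum over the unit ball. -/
noncomputable def polyNorm {X : Type} [NormedAddCommGroup X] [NormedSpace ℝ X] {k : ℕ}
    (A : ContinuousMultilinearMap ℝ (fun _ : Fin k => X) X) : ℝ :=
  sSup {r : ℝ | ∃ x : X, ‖x‖ ≤ 1 ∧ r = ‖A (fun _ => x)‖}

/-- The numerical radius of the `k`-homogeneous polynomial `x ↦ A (x, …, x)`. -/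
noncomputable def polyRadius {X : Type} [NormedAddCommGroup X] [NormedSpace ℝ X] {k : ℕ}
    (A : ContinuousMultilinearMap ℝ (fun _ : Fin k => X) X) : ℝ :=
  sSup {r : ℝ | ∃ (x : X) (f : X →L[ℝ] ℝ), ‖x‖ = 1 ∧ ‖f‖ = 1 ∧ f x = 1 ∧
    r = ‖f (A (fun _ => x))‖}

/-- The polynomial numerical index of order `k` of the real normed space `X`. -/
noncomputable def polyIndex (k : ℕ) (X : Type) [NormedAddCommGroup X] [NormedSpace ℝ X] : ℝ :=
  sInf {r : ℝ | ∃ A : ContinuousMultilinearMap ℝ (fun _ : Fin k => X) X,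
    polyNorm A = 1 ∧ r = polyRadius A}

/-- The set of all values of the polynomial numerical index of order `k` on nonzero real
Banach spaces. -/
def realRange (k : ℕ) : Set ℝ :=
  {r : ℝ | ∃ (X : Type) (_ : NormedAddCommGroup X) (_ : NormedSpace ℝ X),
    CompleteSpace X ∧ Nontrivial X ∧ r = polyIndex k X}

section General

variable {X : Type} [NormedAddCommGroup X] [NormedSpace ℝ X] {k : ℕ}

lemma apply_le (A : ContinuousMultilinearMap ℝ (fun _ : Fin k => X) X) (x : X) :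
    ‖A (fun _ => x)‖ ≤ ‖A‖ * ‖x‖ ^ k := by
  calc ‖A (fun _ => x)‖ ≤ ‖A‖ * ∏ _i : Fin k, ‖x‖ := A.le_opNorm _
    _ = ‖A‖ * ‖x‖ ^ k := by simp

lemma polyNorm_bdd (A : ContinuousMultilinearMap ℝ (fun _ : Fin k => X) X) :
    BddAbove {r : ℝ | ∃ x : X, ‖x‖ ≤ 1 ∧ r = ‖A (fun _ => x)‖} := by
  refine ⟨‖A‖, ?_⟩
  rintro _ ⟨x, hx, rfl⟩
  calc ‖A (fun _ => x)‖ ≤ ‖A‖ * ‖x‖ ^ k := apply_le A x
    _ ≤ ‖A‖ * 1 := by
        gcongr
        exact pow_le_one₀ (norm_nonneg _) hx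
    _ = ‖A‖ := mul_one _

lemma le_polyNorm (A : ContinuousMultilinearMap ℝ (fun _ : Fin k => X) X) (x : X)
    (hx : ‖x‖ ≤ 1) : ‖A (fun _ => x)‖ ≤ polyNorm A :=
  le_csSup (polyNorm_bdd A) ⟨x, hx, rfl⟩

lemma polyNorm_le (A : ContinuousMultilinearMap ℝ (fun _ : Fin k => X) X) (c : ℝ)
    (h : ∀ x : X, ‖x‖ ≤ 1 → ‖A (fun _ => x)‖ ≤ c) : polyNorm A ≤ c := by
  refine csSup_le ⟨‖A (fun _ => (0 : X))‖, 0, by simp, rfl⟩ ?_
  rintro _ ⟨x, hx, rfl⟩
  exact h x hx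

lemma polyNorm_nonneg (A : ContinuousMultilinearMap ℝ (fun _ : Fin k => X) X) :
    0 ≤ polyNorm A := (norm_nonneg _).trans (le_polyNorm A 0 (by simp))

lemma polyRadius_bdd (A : ContinuousMultilinearMap ℝ (fun _ : Fin k => X) X) :
    BddAbove {r : ℝ | ∃ (x : X) (f : X →L[ℝ] ℝ), ‖x‖ = 1 ∧ ‖f‖ = 1 ∧ f x = 1 ∧
      r = ‖f (A (fun _ => x))‖} := by
  refine ⟨polyNorm A, ?_⟩
  rintro _ ⟨x, f, hx, hf, -, rfl⟩
  calc ‖f (A (fun _ => x))‖ ≤ ‖f‖ * ‖A (fun _ => x)‖ := f.le_opNorm _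
    _ = ‖A (fun _ => x)‖ := by rw [hf, one_mul]
    _ ≤ polyNorm A := le_polyNorm A x hx.le

lemma le_polyRadius (A : ContinuousMultilinearMap ℝ (fun _ : Fin k => X) X) (x : X)
    (f : X →L[ℝ] ℝ) (hx : ‖x‖ = 1) (hf : ‖f‖ = 1) (hfx : f x = 1) :
    ‖f (A (fun _ => x))‖ ≤ polyRadius A :=
  le_csSup (polyRadius_bdd A) ⟨x, f, hx, hf, hfx, rfl⟩

lemma polyRadius_nonneg (A : ContinuousMultilinearMap ℝ (fun _ : Fin k => X) X) :
    0 ≤ polyRadius A := by
  apply Real.sSup_nonneg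
  rintro _ ⟨x, f, -, -, -, rfl⟩
  exact norm_nonneg _

lemma polyRadius_le (A : ContinuousMultilinearMap ℝ (fun _ : Fin k => X) X) (c : ℝ) (hc : 0 ≤ c)
    (h : ∀ (x : X) (f : X →L[ℝ] ℝ), ‖x‖ = 1 → ‖f‖ = 1 → f x = 1 →
      ‖f (A (fun _ => x))‖ ≤ c) : polyRadius A ≤ c := by
  apply Real.sSup_le _ hc
  rintro _ ⟨x, f, hx, hf, hfx, rfl⟩
  exact h x f hx hf hfx

lemma polyRadius_le_polyNorm (A : ContinuousMultilinearMap ℝ (fun _ : Fin k => X) X) :
    polyRadius A ≤ polyNorm A := by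
  apply polyRadius_le A _ (polyNorm_nonneg A)
  intro x f hx hf _
  calc ‖f (A (fun _ => x))‖ ≤ ‖f‖ * ‖A (fun _ => x)‖ := f.le_opNorm _
    _ = ‖A (fun _ => x)‖ := by rw [hf, one_mul]
    _ ≤ polyNorm A := le_polyNorm A x hx.le

lemma polyNorm_smul (c : ℝ) (hc : 0 ≤ c)
    (A : ContinuousMultilinearMap ℝ (fun _ : Fin k => X) X) :
    polyNorm (c • A) = c * polyNorm A := by
  unfold polyNorm
  rw [← smul_eq_mul, ← Real.sSup_smul_of_nonneg hc]
  congr 1
  ext r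
  constructor
  · rintro ⟨x, hx, rfl⟩
    refine ⟨‖A (fun _ => x)‖, ⟨x, hx, rfl⟩, ?_⟩
    simp only [smul_apply, norm_smul, Real.norm_of_nonneg hc, smul_eq_mul]
  · rintro ⟨_, ⟨x, hx, rfl⟩, rfl⟩
    refine ⟨x, hx, ?_⟩
    simp only [smul_apply, norm_smul, Real.norm_of_nonneg hc, smul_eq_mul]

lemma polyRadius_smul (c : ℝ) (hc : 0 ≤ c)
    (A : ContinuousMultilinearMap ℝ (fun _ : Fin k => X) X) :
    polyRadius (c • A) = c * polyRadius A := by
  unfold polyRadius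
  rw [← smul_eq_mul, ← Real.sSup_smul_of_nonneg hc]
  congr 1
  ext r
  constructor
  · rintro ⟨x, f, hx, hf, hfx, rfl⟩
    refine ⟨‖f (A (fun _ => x))‖, ⟨x, f, hx, hf, hfx, rfl⟩, ?_⟩
    simp only [smul_apply, map_smul, Real.norm_of_nonneg hc,
      smul_eq_mul, norm_mul]
  · rintro ⟨_, ⟨x, f, hx, hf, hfx, rfl⟩, rfl⟩
    refine ⟨x, f, hx, hf, hfx, ?_⟩
    simp only [smul_apply, map_smul, Real.norm_of_nonneg hc,
      smul_eq_mul, norm_mul]

lemma index_set_bdd : BddBelow {r : ℝ | ∃ A : ContinuousMultilinearMap ℝ (fun _ : Fin k => X) X,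
    polyNorm A = 1 ∧ r = polyRadius A} := by
  refine ⟨0, ?_⟩
  rintro _ ⟨A, -, rfl⟩
  exact polyRadius_nonneg A

/-- The index is a lower bound for the ratio radius / norm. -/
lemma index_mul_le (A : ContinuousMultilinearMap ℝ (fun _ : Fin k => X) X) :
    polyIndex k X * polyNorm A ≤ polyRadius A := by
  rcases (polyNorm_nonneg A).eq_or_lt with h | h
  · rw [← h, mul_zero]; exact polyRadius_nonneg A
  have h1 : polyNorm (((polyNorm A)⁻¹ : ℝ) • A : ContinuousMultilinearMap ℝ (fun _ : Fin k => X) X)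
      = polyNorm ((polyNorm A)⁻¹ • A) := by
    congr 1
  have h2 : polyNorm ((polyNorm A)⁻¹ • A) = 1 := by
    rw [polyNorm_smul _ (inv_nonneg.2 h.le), inv_mul_cancel₀ h.ne']
  have h3 : polyIndex k X ≤ polyRadius ((polyNorm A)⁻¹ • A) :=
    csInf_le index_set_bdd ⟨_, h2, rfl⟩
  rw [polyRadius_smul _ (inv_nonneg.2 h.le), inv_mul_eq_div, le_div_iff₀ h] at h3
  exact h3

lemma index_nonneg : 0 ≤ polyIndex k X := by
  apply Real.sInf_nonneg
  rintro _ ⟨A, -, rfl⟩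
  exact polyRadius_nonneg A

/-- On a nonzero space there is a polynomial of norm one. -/
lemma exists_norm_one [Nontrivial X] (k : ℕ) :
    ∃ A : ContinuousMultilinearMap ℝ (fun _ : Fin k => X) X, polyNorm A = 1 := by
  obtain ⟨u, hu⟩ : ∃ u : X, ‖u‖ = 1 := by
    obtain ⟨v, hv⟩ := exists_ne (0 : X)
    refine ⟨‖v‖⁻¹ • v, ?_⟩
    rw [norm_smul, norm_inv, norm_norm, inv_mul_cancel₀ (norm_ne_zero_iff.2 hv)]
  obtain ⟨g, hg, hgu⟩ := exists_dual_vector ℝ u (by rw [hu]; norm_num)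
  rw [hu] at hgu
  let M : ContinuousMultilinearMap ℝ (fun _ : Fin k => X) ℝ :=
    (ContinuousMultilinearMap.mkPiAlgebra ℝ (Fin k) ℝ).compContinuousLinearMap (fun _ => g)
  let A : ContinuousMultilinearMap ℝ (fun _ : Fin k => X) X :=
    (ContinuousLinearMap.smulRight (1 : ℝ →L[ℝ] ℝ) u).compContinuousMultilinearMap M
  have hA : ∀ x : X, A (fun _ => x) = (g x) ^ k • u := by
    intro x
    simp [A, M]
  refine ⟨A, le_antisymm (polyNorm_le A 1 ?_) ?_⟩
  · intro x hx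
    rw [hA, norm_smul, hu, mul_one, norm_pow]
    apply pow_le_one₀ (norm_nonneg _)
    calc ‖g x‖ ≤ ‖g‖ * ‖x‖ := g.le_opNorm x
      _ ≤ 1 := by rw [hg, one_mul]; exact hx
  · have := le_polyNorm A u hu.le
    rw [hA, hgu, norm_smul, hu] at this
    simpa using this

lemma index_le_one [Nontrivial X] (k : ℕ) : polyIndex k X ≤ 1 := by
  obtain ⟨A, hA⟩ := exists_norm_one (X := X) k
  have h := index_mul_le A
  rw [hA, mul_one] at h
  exact h.trans (hA ▸ polyRadius_le_polyNorm A)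

lemma le_index [Nontrivial X] (c : ℝ)
    (h : ∀ A : ContinuousMultilinearMap ℝ (fun _ : Fin k => X) X,
      c * polyNorm A ≤ polyRadius A) : c ≤ polyIndex k X := by
  obtain ⟨A₀, hA₀⟩ := exists_norm_one (X := X) k
  refine le_csInf ⟨polyRadius A₀, A₀, hA₀, rfl⟩ ?_
  rintro _ ⟨A, hA, rfl⟩
  have := h A
  rwa [hA, mul_one] at this

/-- values of a supporting functional at points that need not be normalised -/
lemma support_le (A : ContinuousMultilinearMap ℝ (fun _ : Fin k => X) X) (y : X)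
    (f : X →L[ℝ] ℝ) (hf : ‖f‖ ≤ 1) (hfy : f y = ‖y‖) (hk : k ≠ 0) :
    ‖f (A (fun _ => y))‖ ≤ polyRadius A * ‖y‖ ^ k := by
  by_cases hy : y = 0
  · subst hy
    obtain ⟨n, rfl⟩ := Nat.exists_eq_succ_of_ne_zero hk
    have : A (fun _ => (0 : X)) = 0 := A.map_coord_zero (0 : Fin (n + 1)) rfl
    rw [this]
    simp
  have hn : 0 < ‖y‖ := norm_pos_iff.2 hy
  have hnC : ‖y‖ ≠ 0 := hn.ne'
  set u : X := ‖y‖⁻¹ • y with hu
  have hyu : y = ‖y‖ • u := by
    rw [hu, smul_smul, mul_inv_cancel₀ hnC, one_smul]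
  have hun : ‖u‖ = 1 := by
    rw [hu, norm_smul, norm_inv, norm_norm, inv_mul_cancel₀ hn.ne']
  have hfu : f u = 1 := by
    rw [hu, map_smul, hfy, smul_eq_mul, inv_mul_cancel₀ hnC]
  have hf1 : ‖f‖ = 1 := by
    apply le_antisymm hf
    have := f.le_opNorm u
    rw [hfu, hun, mul_one] at this
    simpa using this
  have h1 := le_polyRadius A u f hun hf1 hfu
  have h2 : A (fun _ => y) = (‖y‖ ^ k) • A (fun _ => u) := by
    conv_lhs => rw [hyu]
    rw [A.map_smul_univ (fun _ => ‖y‖) (fun _ => u)]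
    simp
  rw [h2, map_smul, norm_smul, norm_pow, norm_norm, mul_comm]
  gcongr


end General

section Compare

variable {X Y : Type} [NormedAddCommGroup X] [NormedSpace ℝ X] [NormedAddCommGroup Y]
  [NormedSpace ℝ Y]

/-- Two spaces that are close, together with their supporting pairs, have close indices. -/
lemma index_compare [Nontrivial Y] {k : ℕ} (hk : k ≠ 0) (e : X ≃ₗ[ℝ] Y) (δ : ℝ) (hδ : 0 ≤ δ)
    (h1 : ∀ x, ‖e x‖ ≤ (1 + δ) * ‖x‖) (h2 : ∀ x, ‖x‖ ≤ (1 + δ) * ‖e x‖)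
    (h3 : ∀ (x : X) (f : X →L[ℝ] ℝ), ‖x‖ = 1 → ‖f‖ = 1 → f x = 1 →
      ∃ g : Y →L[ℝ] ℝ, ‖g‖ ≤ 1 ∧ g (e x) = ‖e x‖ ∧ ∀ u, ‖g (e u) - f u‖ ≤ δ * ‖u‖) :
    polyIndex k X ≤ (1 + δ) ^ (2 * k + 1) * polyIndex k Y + δ * (1 + δ) ^ (2 * k + 2) := by
  have hpos : 0 < 1 + δ := by linarith
  have h2' : ∀ y, ‖e.symm y‖ ≤ (1 + δ) * ‖y‖ := by
    intro y
    have := h2 (e.symm y)
    rwa [LinearEquiv.apply_symm_apply] at this
  let E : X ≃L[ℝ] Y := e.toContinuousLinearEquivOfBounds (1 + δ) (1 + δ) h1 h2'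
  have hE : ∀ x, E x = e x := fun _ => rfl
  have hEs : ∀ y, E.symm y = e.symm y := fun _ => rfl
  have key : ∀ B : ContinuousMultilinearMap ℝ (fun _ : Fin k => Y) Y, polyNorm B = 1 →
      polyIndex k X ≤ (1 + δ) ^ (2 * k + 1) * polyRadius B + δ * (1 + δ) ^ (2 * k + 2) := by
    intro B hB
    let A : ContinuousMultilinearMap ℝ (fun _ : Fin k => X) X :=
      (E.symm : Y →L[ℝ] X).compContinuousMultilinearMap
        (B.compContinuousLinearMap (fun _ => (E : X →L[ℝ] Y)))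
    have hA : ∀ x, A (fun _ => x) = e.symm (B (fun _ => e x)) := fun _ => rfl
    have hBhom : ∀ y : Y, ‖B (fun _ => y)‖ ≤ ‖y‖ ^ k := by
      intro y
      by_cases hy : y = 0
      · obtain ⟨n, rfl⟩ := Nat.exists_eq_succ_of_ne_zero hk
        subst hy
        have : B (fun _ => (0 : Y)) = 0 := B.map_coord_zero (0 : Fin (n + 1)) rfl
        rw [this]; simp
      have hn : 0 < ‖y‖ := norm_pos_iff.2 hy
      have hnC : ‖y‖ ≠ 0 := hn.ne'
      have hyu : y = ‖y‖ • (‖y‖⁻¹ • y) := by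
        rw [smul_smul, mul_inv_cancel₀ hnC, one_smul]
      have h4 : B (fun _ => y) = (‖y‖ ^ k) • B (fun _ => ‖y‖⁻¹ • y) := by
        conv_lhs => rw [hyu]
        rw [B.map_smul_univ (fun _ => ‖y‖) (fun _ => ‖y‖⁻¹ • y)]
        simp
      rw [h4, norm_smul, norm_pow, norm_norm]
      have h5 : ‖B (fun _ => ‖y‖⁻¹ • y)‖ ≤ 1 := by
        rw [← hB]
        apply le_polyNorm
        rw [norm_smul, norm_inv, norm_norm, inv_mul_cancel₀ hn.ne']
      calc ‖y‖ ^ k * ‖B (fun _ => ‖y‖⁻¹ • y)‖ ≤ ‖y‖ ^ k * 1 := by gcongr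
        _ = ‖y‖ ^ k := mul_one _
    -- lower bound for the norm of `A`
    have hAn0 : polyNorm B ≤ (1 + δ) ^ (k + 1) * polyNorm A := by
      apply polyNorm_le
      intro y hy
      set x : X := (1 + δ)⁻¹ • e.symm y with hx
      have hxn : ‖x‖ ≤ 1 := by
        rw [hx, norm_smul, Real.norm_of_nonneg (by positivity)]
        calc (1 + δ)⁻¹ * ‖e.symm y‖ ≤ (1 + δ)⁻¹ * ((1 + δ) * ‖y‖) := by gcongr; exact h2' y
          _ = ‖y‖ := by field_simp
          _ ≤ 1 := hy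
      have hyx : y = (1 + δ) • e x := by
        rw [hx, map_smul, LinearEquiv.apply_symm_apply, smul_smul,
          mul_inv_cancel₀ hpos.ne', one_smul]
      have h4 : B (fun _ => y) = ((1 + δ) ^ k) • B (fun _ => e x) := by
        conv_lhs => rw [hyx]
        rw [B.map_smul_univ (fun _ => (1 + δ)) (fun _ => e x)]
        simp
      have h5 : ‖B (fun _ => e x)‖ ≤ (1 + δ) * polyNorm A := by
        have h51 := h1 (A (fun _ => x))
        rw [hA, LinearEquiv.apply_symm_apply] at h51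
        calc ‖B (fun _ => e x)‖ ≤ (1 + δ) * ‖A (fun _ => x)‖ := by rw [hA]; exact h51
          _ ≤ _ := by gcongr; exact le_polyNorm A x hxn
      rw [h4, norm_smul, norm_pow, Real.norm_of_nonneg hpos.le]
      calc (1 + δ) ^ k * ‖B (fun _ => e x)‖ ≤ (1 + δ) ^ k * ((1 + δ) * polyNorm A) := by gcongr
        _ = _ := by ring
    have hAn : 1 ≤ (1 + δ) ^ (k + 1) * polyNorm A := hB ▸ hAn0
    -- upper bound for the radius of `A`
    have hAr : polyRadius A ≤ (1 + δ) ^ k * polyRadius B + δ * (1 + δ) ^ (k + 1) := by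
      have hRB := polyRadius_nonneg B
      apply polyRadius_le _ _ (by positivity)
      intro x f hx hf hfx
      obtain ⟨g, hg1, hg2, hg3⟩ := h3 x f hx hf hfx
      have h4 := hg3 (A (fun _ => x))
      have h5 : e (A (fun _ => x)) = B (fun _ => e x) := by
        rw [hA, LinearEquiv.apply_symm_apply]
      rw [h5] at h4
      have hex : ‖e x‖ ≤ 1 + δ := by
        have := h1 x
        rwa [hx, mul_one] at this
      have h6 : ‖g (B (fun _ => e x))‖ ≤ (1 + δ) ^ k * polyRadius B := by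
        calc ‖g (B (fun _ => e x))‖ ≤ polyRadius B * ‖e x‖ ^ k := support_le B (e x) g hg1 hg2 hk
          _ ≤ polyRadius B * (1 + δ) ^ k := by gcongr
          _ = _ := mul_comm _ _
      have h7 : ‖A (fun _ => x)‖ ≤ (1 + δ) ^ (k + 1) := by
        rw [hA]
        calc ‖e.symm (B (fun _ => e x))‖ ≤ (1 + δ) * ‖B (fun _ => e x)‖ := h2' _
          _ ≤ (1 + δ) * ‖e x‖ ^ k := by gcongr; exact hBhom _
          _ ≤ (1 + δ) * (1 + δ) ^ k := by gcongr
          _ = _ := by ring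
      calc ‖f (A (fun _ => x))‖ = ‖g (B (fun _ => e x)) - (g (B (fun _ => e x)) - f (A (fun _ => x)))‖ := by
            congr 1; ring
        _ ≤ ‖g (B (fun _ => e x))‖ + ‖g (B (fun _ => e x)) - f (A (fun _ => x))‖ := norm_sub_le _ _
        _ ≤ (1 + δ) ^ k * polyRadius B + δ * (1 + δ) ^ (k + 1) := by
            gcongr
            exact h4.trans (by gcongr)
    have hidx := index_mul_le A
    have hI := index_nonneg (X := X) (k := k)
    calc polyIndex k X = polyIndex k X * 1 := (mul_one _).symm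
      _ ≤ polyIndex k X * ((1 + δ) ^ (k + 1) * polyNorm A) := by gcongr
      _ = (1 + δ) ^ (k + 1) * (polyIndex k X * polyNorm A) := by ring
      _ ≤ (1 + δ) ^ (k + 1) * ((1 + δ) ^ k * polyRadius B + δ * (1 + δ) ^ (k + 1)) := by
          gcongr
          exact hidx.trans hAr
      _ = _ := by ring
  have hne : (polyIndex k X - δ * (1 + δ) ^ (2 * k + 2)) / (1 + δ) ^ (2 * k + 1) ≤
      polyIndex k Y := by
    obtain ⟨B₀, hB₀⟩ := exists_norm_one (X := Y) k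
    refine le_csInf ⟨polyRadius B₀, B₀, hB₀, rfl⟩ ?_
    rintro _ ⟨B, hB, rfl⟩
    rw [div_le_iff₀ (by positivity)]
    have := key B hB
    linarith
  rw [div_le_iff₀ (by positivity)] at hne
  linarith

end Compare

end Pool.Agent.W646.PN
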