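import Pool.Agent.W646.PN.Constr

/-!
# All polynomial numerical indices of the Gurariy type space are one
-/

set_option autoImplicit false

namespace Pool.Agent.W646.PN

open Pool.Agent.Helper184.Gur

section

variable {X : Type} [NormedAddCommGroup X] [NormedSpace ℝ X] {co : ℕ → X →L[ℝ] ℝ} {z : ℕ → X}

lemma upper (hDEG : S_DEG) (G : IsG co z) {k : ℕ}
    {A : ContinuousMultilinearMap ℝ (fun _ : Fin k => X) X} {v : ℝ}
    (H : ∀ (y : X) (f : X →L[ℝ] ℝ), ‖y‖ = 1 → ‖f‖ = 1 → f y = 1 → |f (A (fun _ => y))| ≤ v)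
    {x : X} {n : ℕ} (hx : Rec co n x) (hdy : ∀ i, Dy (co i x)) (hx1 : ‖x‖ ≤ 1) (i : ℕ) :
    co i (A (fun _ => x)) ≤ v := by
  obtain ⟨C, hC, hdeg⟩ := hDEG k
  apply le_of_forall_pos_le_add
  intro η hη
  obtain ⟨N₀, hN₀⟩ := exists_nat_gt (C * ‖A‖ / (η / 2))
  set N := N₀ + 1 with hN
  have hNpos : (0 : ℝ) < N := by positivity
  have hN1 : C * ‖A‖ ≤ N * (η / 2) := by
    rw [div_lt_iff₀ (by positivity)] at hN₀
    rw [hN]
    push_cast
    nlinarith
  obtain ⟨p, u, hnm, hex, heu⟩ := con X co z G k A v H x n i hx (hdy i) hx1 (η / (4 * N))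
    (by positivity) N
  have hNε : (N : ℝ) * (η / (4 * N)) = η / 4 := by field_simp
  rw [hNε] at hex heu
  let φ : MultilinearMap ℝ (fun _ : Fin k => X) ℝ :=
    (co p).toLinearMap.compMultilinearMap A.toMultilinearMap
  have hφ : ∀ y : X, φ (fun _ => y) = co p (A (fun _ => y)) := fun _ => rfl
  have hb : ∀ S ⊆ Finset.range N, |φ (fun _ => x + ∑ l ∈ S, u l)| ≤ ‖A‖ := by
    intro S hS
    rw [hφ]
    calc |co p (A (fun _ => x + ∑ l ∈ S, u l))| ≤ ‖A (fun _ => x + ∑ l ∈ S, u l)‖ := G.le_norm _ _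
      _ ≤ ‖A‖ * ‖x + ∑ l ∈ S, u l‖ ^ k := apply_le A _
      _ ≤ ‖A‖ * 1 := by
          gcongr
          exact pow_le_one₀ (norm_nonneg _) (hnm S hS)
      _ = ‖A‖ := mul_one _
  have h1 := hdeg X φ x u N ‖A‖ hb
  have h2 : ∑ l ∈ Finset.range N, (φ (fun _ => x + u l) - φ (fun _ => x)) ≤
      ∑ _l ∈ Finset.range N, (v + η / 4 - φ (fun _ => x)) := by
    apply Finset.sum_le_sum
    intro l hl
    have := heu l (Finset.mem_range.1 hl)
    rw [← hφ] at this
    linarith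
  rw [Finset.sum_const, Finset.card_range, nsmul_eq_mul] at h2
  have h3 : (N : ℝ) * (φ (fun _ => x)) ≤ N * (v + η / 4 + η / 2) := by nlinarith
  have h4 : φ (fun _ => x) ≤ v + η / 4 + η / 2 := le_of_mul_le_mul_left h3 hNpos
  rw [hφ] at h4
  rw [abs_le] at hex
  linarith [hex.1]

lemma norm_le_of_dyadic (hDEG : S_DEG) (G : IsG co z) {k : ℕ}
    {A : ContinuousMultilinearMap ℝ (fun _ : Fin k => X) X} {v : ℝ} (hv : 0 ≤ v)
    (H : ∀ (y : X) (f : X →L[ℝ] ℝ), ‖y‖ = 1 → ‖f‖ = 1 → f y = 1 → |f (A (fun _ => y))| ≤ v)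
    {x : X} {n : ℕ} (hx : Rec co n x) (hdy : ∀ i, Dy (co i x)) (hx1 : ‖x‖ ≤ 1) :
    ‖A (fun _ => x)‖ ≤ v := by
  have H' : ∀ (y : X) (f : X →L[ℝ] ℝ), ‖y‖ = 1 → ‖f‖ = 1 → f y = 1 →
      |f ((-A) (fun _ => y))| ≤ v := by
    intro y f h1 h2 h3
    have := H y f h1 h2 h3
    rw [neg_apply, map_neg, abs_neg]
    exact this
  apply G.norm_le _ _ hv
  intro i
  rw [abs_le]
  have h1 := upper hDEG G H hx hdy hx1 i
  have h2 := upper hDEG G H' hx hdy hx1 i
  rw [neg_apply, map_neg] at h2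
  constructor <;> linarith

theorem one (hDEN : S_DEN) (hDEG : S_DEG) [Nontrivial X] (G : IsG co z) (k : ℕ) :
    polyIndex k X = 1 := by
  apply le_antisymm (index_le_one k)
  apply le_index
  intro A
  rw [one_mul]
  have hv := polyRadius_nonneg A
  have H : ∀ (y : X) (f : X →L[ℝ] ℝ), ‖y‖ = 1 → ‖f‖ = 1 → f y = 1 →
      |f (A (fun _ => y))| ≤ polyRadius A := by
    intro y f h1 h2 h3
    have := le_polyRadius A y f h1 h2 h3
    rwa [Real.norm_eq_abs] at this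
  apply polyNorm_le
  intro x hx
  have hcl : IsClosed {y : X | ‖A (fun _ => y)‖ ≤ polyRadius A} := by
    apply isClosed_le
    · exact (A.cont.comp (continuous_pi fun _ => continuous_id)).norm
    · exact continuous_const
  have hmem : x ∈ closure {y : X | ‖A (fun _ => y)‖ ≤ polyRadius A} := by
    rw [Metric.mem_closure_iff]
    intro ε hε
    obtain ⟨w, n, hw, hdy, hw1, hd⟩ := hDEN X co z G x (ε / 2) hx (by positivity)
    refine ⟨w, norm_le_of_dyadic hDEG G hv H hw hdy hw1, ?_⟩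
    rw [dist_eq_norm]
    linarith
  exact hcl.closure_subset hmem

end

end Pool.Agent.W646.PN
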