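import Pool.Agent.W646.PN.Gen
import Pool.Agent.Helper184.GurMain

/-!
# The parts of the proof that every number of `[0, 1]` is a polynomial numerical index
-/

set_option autoImplicit false

namespace Pool.Agent.W646.PN

open Pool.Agent.Helper184.Gur

/-- dyadic rational -/
def Dy (w : ℝ) : Prop := ∃ (s : ℕ) (j : ℤ), w = (j : ℝ) / 2 ^ s

/-- dyadic convex combinations of two coordinates are coordinates again -/
def S_COMB : Prop :=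
  ∀ (X : Type) [NormedAddCommGroup X] [NormedSpace ℝ X] (co : ℕ → X →L[ℝ] ℝ)
    (p q : ℕ) (w : ℝ), Dy w → 0 ≤ w → w ≤ 1 → ∀ m : ℕ, ∃ k, m ≤ k ∧
    ∀ f : X, Rec co m f → co k f = w * co p f + (1 - w) * co q f

/-- density of dyadic elements of the unit ball -/
def S_DEN : Prop :=
  ∀ (X : Type) [NormedAddCommGroup X] [NormedSpace ℝ X] (co : ℕ → X →L[ℝ] ℝ) (z : ℕ → X),
    IsG co z → ∀ (x : X) (δ : ℝ), ‖x‖ ≤ 1 → 0 < δ →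
    ∃ (w : X) (n : ℕ), Rec co n w ∧ (∀ i, Dy (co i w)) ∧ ‖w‖ ≤ 1 ∧ ‖x - w‖ ≤ δ

/-- the construction -/
def S_CON : Prop :=
  ∀ (X : Type) [NormedAddCommGroup X] [NormedSpace ℝ X] (co : ℕ → X →L[ℝ] ℝ) (z : ℕ → X),
    IsG co z → ∀ (k : ℕ) (A : ContinuousMultilinearMap ℝ (fun _ : Fin k => X) X) (v : ℝ),
    (∀ (y : X) (f : X →L[ℝ] ℝ), ‖y‖ = 1 → ‖f‖ = 1 → f y = 1 → |f (A (fun _ => y))| ≤ v) →
    ∀ (x : X) (n i : ℕ), Rec co n x → Dy (co i x) → ‖x‖ ≤ 1 →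
    ∀ ε : ℝ, 0 < ε → ∀ N : ℕ, ∃ (p : ℕ) (u : ℕ → X),
      (∀ S ⊆ Finset.range N, ‖x + ∑ l ∈ S, u l‖ ≤ 1) ∧
      |co p (A (fun _ => x)) - co i (A (fun _ => x))| ≤ N * ε ∧
      ∀ l < N, co p (A (fun _ => x + u l)) ≤ v + N * ε

/-- the degree estimate -/
def S_DEG : Prop :=
  ∀ k : ℕ, ∃ C : ℝ, 0 ≤ C ∧ ∀ (X : Type) [AddCommGroup X] [Module ℝ X]
    (φ : MultilinearMap ℝ (fun _ : Fin k => X) ℝ) (x : X) (u : ℕ → X) (N : ℕ) (M : ℝ),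
    (∀ S ⊆ Finset.range N, |φ (fun _ => x + ∑ l ∈ S, u l)| ≤ M) →
    -(C * M) ≤ ∑ l ∈ Finset.range N, (φ (fun _ => x + u l) - φ (fun _ => x))

/-- a space isomorphic to a given space, with index `0` -/
def S_ZERO : Prop :=
  ∀ (X : Type) [NormedAddCommGroup X] [NormedSpace ℝ X] [CompleteSpace X]
    (f₀ f₁ : X →L[ℝ] ℝ) (x₀ x₁ : X), f₀ x₀ = 1 → f₀ x₁ = 0 → f₁ x₀ = 0 → f₁ x₁ = 1 →
    ∀ k : ℕ, 2 ≤ k → ∃ (Y : Type) (_ : NormedAddCommGroup Y) (_ : NormedSpace ℝ Y),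
    CompleteSpace Y ∧ Nontrivial Y ∧ Nonempty (X ≃L[ℝ] Y) ∧ polyIndex k Y = 0

/-- all values between the indices of two isomorphic spaces are taken -/
def S_PATH : Prop :=
  ∀ (k : ℕ), k ≠ 0 → ∀ (X Y : Type) [NormedAddCommGroup X] [NormedSpace ℝ X]
    [NormedAddCommGroup Y] [NormedSpace ℝ Y] [CompleteSpace X] [CompleteSpace Y]
    [Nontrivial X] [Nontrivial Y], (X ≃L[ℝ] Y) →
    ∀ r : ℝ, polyIndex k Y ≤ r → r ≤ polyIndex k X → r ∈ realRange k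

end Pool.Agent.W646.PN
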